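import Pool.Agent.Lib.MP_6d445e_gt.W.All

/-!
# It is consistent that every Menger-bounded separable metrizable group is Scheepers-bounded

All the notions (`ZFC`, `MBSB`) are written once, for an arbitrary collection with `B`-valued
membership and equality relations (`Str B U`), in `Pool/Agent/Lib/MP_6d445e_gt/V/Defs.lean`,
`Pool/Agent/Lib/MP_c5d73d_lc/F/Defs.lean` and `Pool/Agent/Lib/MP_100a6c_lc/Defs.lean`.
`VB B` is the Boolean-valued universe `V^B`; for `E : M → M → Prop` the structure `⟨E, Eq⟩` is the
ordinary (two-valued) structure `(M, E)` for the language of set theory.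
-/

universe u

namespace Pool.Agent.Results.MP_6d445e_gt.MengerScheepers

open Pool.Agent.Lib.MP_100a6c_lc
open Pool.Agent.Lib.MP_c5d73d_lc.F (ZFC)
open Pool.Agent.Lib.MP_6d445e_gt (MBSB)

/-- **Theorem.** (1) There is a nontrivial complete Boolean algebra `B` such that all axioms of ZFC,
and the statement that every second countable Hausdorff (equivalently, separable metrizable)
topological group with `S_fin(O_nbd, O)` has `S_1(Ω_nbd, Ω)`, have Boolean value `⊤` in the
Boolean-valued universe `V^B`;
(2) there is a model `(M, E)` of ZFC in which this statement is true.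
No large cardinal is assumed. -/
theorem result :
    (∃ (B : Type u) (_ : CompleteBooleanAlgebra B), (⊥ : B) ≠ ⊤ ∧
      ZFC (VB B) = ⊤ ∧ MBSB (VB B) = ⊤) ∧
    ∃ (M : Type (u + 1)) (E : M → M → Prop),
      ZFC (⟨E, Eq⟩ : Str Prop M) ∧ MBSB (⟨E, Eq⟩ : Str Prop M) :=
  Pool.Agent.Lib.MP_6d445e_gt.W.All.main

end Pool.Agent.Results.MP_6d445e_gt.MengerScheepers
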